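import Pool.Agent.X320.FS.App

/-!
# Frobenius is semisimple on the cohomology of almost all reductions, for all `ℓ` at once

Let `X` be a smooth projective variety over a number field `K` and `i > 0`. The cohomology groups
`H^i(X ⊗ K̄, ℚ_ℓ)`, for all prime numbers `ℓ`, form a polarized pure system of weight `i` in the sense of the
structure `PureSystem` below: they are unramified at the places `v ∤ ℓ` of good reduction, where the Frobenius
polynomial has integral coefficients and does not depend on `ℓ`; the complex roots have absolute value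
`N(v) ^ (i / 2)`; the Galois group acts by similitudes of a nondegenerate, symmetric or alternating form. By smooth
and proper base change the Frobenius elements at `v` act on it like the Frobenius of the residue field of
`v` acts on the cohomology of the reduction of `X` modulo `v`.

**Theorem.** There is a set of places of density one such that for all `v` in this set the Frobenius elements at `v`
act semisimply on `V_ℓ` for all `ℓ` not divisible by `v` for which either the Galois representation `V_ℓ` is
semisimple, or for every `d > 0` with `2 d ≤ dim V` and `w d [K : ℚ]` even there is a rational prime `p ≠ ℓ` which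
splits completely in `K` into good places, such that the Frobenius polynomials at the places above `p` have
no isotropic relation of size `d`.

So if the Frobenius polynomials above one prime number `p` have no isotropic relations (a condition
which one can check by counting points; it holds in general) then the Frobenius acts semisimply on the cohomology
in degree `i` of the reductions of `X` at 100 % of the places `v`, for all `ℓ ≠ p` and prime to `v` at once.

Proof. Let `r(x)` be the number of different eigenvalues of `x` in the Galois group on `V_ℓ`. If `x` is a local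
maximum of `r` and `V_ℓ` is semisimple then `x` is semisimple: the derivative of the coefficients of the radical of
the characteristic polynomial gives that the nilpotent part of the logarithm of a power of `x` is orthogonal
to the Lie algebra for the trace form, so it lies in the radical of the Lie algebra, and it is in an
ideal on which it commutes with all its conjugates; then it is `0` because the representation is semisimple.
On the cosets of a suitable open subgroup, which is the same for all `ℓ` by the theorem of Chebotarev, the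
function `r` attains its maximum outside a set of measure zero.
-/

set_option autoImplicit false

namespace Pool.Agent.Results.MP_93fb11_ag.AlmostAllReductions

open NumberField IsDedekindDomain Polynomial Matrix Filter Topology
open Pool.Agent.W401.Cheb (GK IsFrob IsInert dens)

/-- A polarized pure system of weight `w` and dimension `n` over the number field `K`: continuous representations
`ρ ℓ` of the Galois group of `K` over `ℚ_ℓ` for all prime numbers `ℓ`, polynomials `P v` with integral coefficients
for the places `v` outside the finite set `S`, such that for `v ∉ S` and `v ∤ ℓ`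
* the inertia groups at `v` act trivially,
* the inverse of a Frobenius element at `v` has characteristic polynomial `P v`,
* the complex roots of `P v` have absolute value `N(v) ^ (w / 2)`,
and nondegenerate symmetric or alternating forms with Gram matrix `J ℓ` for which the Galois group acts by
similitudes with factor `χ ℓ`, equal to `N(v) ^ w` for the inverse of a Frobenius element. -/
structure PureSystem (K : Type) [Field K] [NumberField K] (w n : ℕ) where
  S : Set (HeightOneSpectrum (𝓞 K))
  finite : S.Finite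
  P : HeightOneSpectrum (𝓞 K) → ℤ[X]
  ρ : ∀ ℓ : ℕ, [Fact ℓ.Prime] → GK K →* GL (Fin n) ℚ_[ℓ]
  J : ∀ ℓ : ℕ, [Fact ℓ.Prime] → Matrix (Fin n) (Fin n) ℚ_[ℓ]
  χ : ∀ ℓ : ℕ, [Fact ℓ.Prime] → GK K → ℚ_[ℓ]
  continuous : ∀ (ℓ : ℕ) [Fact ℓ.Prime], Continuous (ρ ℓ)
  unramified : ∀ (ℓ : ℕ) [Fact ℓ.Prime], ∀ v ∉ S, (ℓ : 𝓞 K) ∉ v.asIdeal → ∀ σ, IsInert v σ → ρ ℓ σ = 1
  charpoly : ∀ (ℓ : ℕ) [Fact ℓ.Prime], ∀ v ∉ S, (ℓ : 𝓞 K) ∉ v.asIdeal → ∀ σ, IsFrob v σ →
    (ρ ℓ σ⁻¹ : Matrix (Fin n) (Fin n) ℚ_[ℓ]).charpoly = (P v).map (algebraMap ℤ ℚ_[ℓ])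
  weight : ∀ v ∉ S, ∀ z : ℂ, aeval z (P v) = 0 → ‖z‖ ^ 2 = (Ideal.absNorm v.asIdeal : ℝ) ^ w
  nondegenerate : ∀ (ℓ : ℕ) [Fact ℓ.Prime], (J ℓ).det ≠ 0
  symm_or_alt : ∀ (ℓ : ℕ) [Fact ℓ.Prime], (J ℓ)ᵀ = J ℓ ∨ (J ℓ)ᵀ = -J ℓ
  similitude : ∀ (ℓ : ℕ) [Fact ℓ.Prime] (g : GK K), (ρ ℓ g : Matrix (Fin n) (Fin n) ℚ_[ℓ])ᵀ * J ℓ *
    (ρ ℓ g : Matrix (Fin n) (Fin n) ℚ_[ℓ]) = χ ℓ g • J ℓ
  factor : ∀ (ℓ : ℕ) [Fact ℓ.Prime], ∀ v ∉ S, (ℓ : 𝓞 K) ∉ v.asIdeal → ∀ σ, IsFrob v σ →
    χ ℓ σ⁻¹ = (Ideal.absNorm v.asIdeal : ℚ_[ℓ]) ^ w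

/-- the subspace `U` is stable under the representation `ρ` -/
def Stable {Γ F : Type} [Group Γ] [Field F] {n : ℕ} (ρ : Γ →* GL (Fin n) F) (U : Submodule F (Fin n → F)) : Prop :=
  ∀ g, ∀ x ∈ U, (ρ g : Matrix (Fin n) (Fin n) F) *ᵥ x ∈ U

/-- the representation `ρ` is semisimple: every stable subspace has a stable complement -/
def SemisimpleRep {Γ F : Type} [Group Γ] [Field F] {n : ℕ} (ρ : Γ →* GL (Fin n) F) : Prop :=
  ∀ U, Stable ρ U → ∃ U', Stable ρ U' ∧ IsCompl U U'

/-- the matrix `X` is semisimple: its minimal polynomial has no repeated roots -/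
def SemisimpleMatrix {F : Type} [Field F] {n : ℕ} (X : Matrix (Fin n) (Fin n) F) : Prop := (minpoly F X).Separable

/-- An isotropic relation of size `d`, rational over `F`, between the roots in `Ω` of the polynomials
`P i`: monic polynomials `Q i` of degree `d` over `F` such that the roots `z` of `Q i` together with
the numbers `s / z` are (with multiplicities) among the roots of `P i`, and such that the product of
all the roots of all the `Q i` is a square root of `s ^ (d * m)` times a root of unity. -/
def IsotropicRelation (F Ω : Type) [Field F] [Field Ω] [Algebra F Ω] {m : ℕ} (P : Fin m → ℤ[X])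
    (s d : ℕ) : Prop :=
  ∃ (Q : Fin m → F[X]) (N : ℕ), 0 < N ∧
    (∀ i, (Q i).Monic ∧ (Q i).natDegree = d ∧
      (Q i).aroots Ω + ((Q i).aroots Ω).map (fun z => (s : Ω) / z) ≤ (P i).aroots Ω) ∧
    (∏ i, ((Q i).aroots Ω).prod) ^ (2 * N) = (s : Ω) ^ (d * m * N)

/-- For every `d > 0` with `2 d ≤ n` and with `w d [K : ℚ]` even there is a prime number `p ≠ ℓ` which splits
completely in `K` into places `v i ∉ S`, such that the polynomials `P (v i)` have no isotropic relation of size `d`
over the complex numbers, or none which is rational over `ℚ_ℓ`. -/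
def NoIsotropicRelation {K : Type} [Field K] [NumberField K] {w n : ℕ} (A : PureSystem K w n) (ℓ : ℕ)
    [Fact ℓ.Prime] : Prop :=
  ∀ d : ℕ, 0 < d → 2 * d ≤ n → Even (w * d * Module.finrank ℚ K) →
    ∃ (p : ℕ) (v : Fin (Module.finrank ℚ K) → HeightOneSpectrum (𝓞 K)),
      p.Prime ∧ p ≠ ℓ ∧ Function.Injective v ∧ (∀ i, (p : 𝓞 K) ∈ (v i).asIdeal ∧ v i ∉ A.S) ∧
      ¬ (IsotropicRelation ℂ ℂ (fun i => A.P (v i)) (p ^ w) d ∧
        IsotropicRelation ℚ_[ℓ] (AlgebraicClosure ℚ_[ℓ]) (fun i => A.P (v i)) (p ^ w) d)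

/-- For a polarized pure system of weight `w > 0`, the set of the places `v ∉ S` such that for all `ℓ` prime to `v`
for which `ρ ℓ` is semisimple or the system has no isotropic relation at `ℓ`, all Frobenius elements
at `v` act semisimply in `ρ ℓ`, has natural density one. -/
theorem result (K : Type) [Field K] [NumberField K] (w n : ℕ) (hw : 0 < w) (A : PureSystem K w n) :
    Tendsto (dens fun v : HeightOneSpectrum (𝓞 K) => v ∉ A.S ∧ ∀ (ℓ : ℕ) [Fact ℓ.Prime], (ℓ : 𝓞 K) ∉ v.asIdeal →
      SemisimpleRep (A.ρ ℓ) ∨ NoIsotropicRelation A ℓ →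
        ∀ σ, IsFrob v σ → SemisimpleMatrix (A.ρ ℓ σ : Matrix (Fin n) (Fin n) ℚ_[ℓ])) atTop (𝓝 1) := by
  refine Pool.Agent.X320.FS.dens_one_remove ∅ Set.finite_empty ?_
    (Pool.Agent.X320.FS.compat_ss A.finite A.P A.ρ A.continuous A.unramified A.charpoly)
  rintro v ⟨hvS, hv⟩ -
  refine ⟨hvS, fun ℓ hℓ hvℓ hor σ hσ => ?_⟩
  have hss : Pool.Agent.X320.DS.Semisimple (A.ρ ℓ) := by
    rcases hor with h | hno
    · exact h
    · refine Pool.Agent.X320.FS.semisimple_pol (A.ρ ℓ) (A.continuous ℓ) (A.J ℓ) (A.nondegenerate ℓ) (A.symm_or_alt ℓ)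
        (A.χ ℓ) (A.similitude ℓ) hw
        (S := A.S ∪ {v : HeightOneSpectrum (𝓞 K) | (ℓ : 𝓞 K) ∈ v.asIdeal})
        (A.finite.union (Pool.Agent.X320.DS.finite_above hℓ.out.ne_zero)) A.P ?_ ?_
      · intro u hu
        have huS : u ∉ A.S := fun h => hu (Or.inl h)
        have huℓ : (ℓ : 𝓞 K) ∉ u.asIdeal := fun h => hu (Or.inr h)
        refine ⟨?_, A.weight u huS, fun τ hτ => ⟨A.charpoly ℓ u huS huℓ τ hτ, A.factor ℓ u huS huℓ τ hτ⟩⟩
        obtain ⟨τ, hτ⟩ := Pool.Agent.W401.Frob.exists_frob u
        have h1 := A.charpoly ℓ u huS huℓ τ hτ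
        have h2 := Matrix.charpoly_monic (A.ρ ℓ τ⁻¹ : Matrix (Fin n) (Fin n) ℚ_[ℓ])
        rw [h1] at h2
        exact Polynomial.monic_of_injective (algebraMap ℤ ℚ_[ℓ]).injective_int h2
      · intro d h1 h2 h3
        obtain ⟨p, u, hp, hpℓ, hu, hpu, hnot⟩ := hno d h1 h2 h3
        refine ⟨p, u, hp, hu, fun i => ⟨(hpu i).1, ?_⟩, hnot⟩
        rintro (h | h)
        · exact (hpu i).2 h
        · refine (u i).isPrime.ne_top ?_
          rw [Ideal.eq_top_iff_one]
          have hcop : Nat.Coprime p ℓ := (Nat.coprime_primes hp hℓ.out).2 hpℓ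
          have h4 := Nat.gcd_eq_gcd_ab p ℓ
          rw [hcop.gcd_eq_one] at h4
          have h5 : (1 : 𝓞 K) = (p : 𝓞 K) * (Nat.gcdA p ℓ : 𝓞 K) + (ℓ : 𝓞 K) * (Nat.gcdB p ℓ : 𝓞 K) := by
            have := congrArg (Int.cast : ℤ → 𝓞 K) h4
            push_cast at this
            exact this
          rw [h5]
          exact Ideal.add_mem _ (Ideal.mul_mem_right _ _ (hpu i).1) (Ideal.mul_mem_right _ _ h)
  have h1 := hv ℓ hvℓ hss σ hσ
  have h2 := h1.minpoly_squarefree
  rw [Matrix.minpoly_toLin'] at h2
  exact (PerfectField.separable_iff_squarefree).2 h2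

end Pool.Agent.Results.MP_93fb11_ag.AlmostAllReductions
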