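import Pool.Agent.X208.SP.SemiMain

/-!
# Semisimplicity of Frobenius and the Tate classes on `Y × Sym ^ n (X × X)`

Let `W` be a Weil cohomology theory with an action `G` of a cyclic group generated by `g` which has
the formal properties of the action of the Galois group of a finite field (`g` is the Frobenius
element). The Tate classes of degree `2 j` are the classes on which a power of `g` acts by the same
power of `χ(g) ^ j`. Let `t^j(n)` be the dimension of the space of the Tate classes of degree `2 j` on
`Y × (X × X) ^ n` which are symmetric in the factors `X × X`, and let `u^j(n)` be the dimension of the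
same space modulo the Tate classes whose products with all Tate classes have degree zero.

The theorem, for a variety `X` of dimension `d`:

* if `g` does not act semisimply on the cohomology of `X` then `∑ i, u^(j - i d)(n - i) ≤ t^j(n)` for
  all `Y`, `n` and `j`;
* so if for one `Y` with nonzero cohomology the `u^j(n)` are a positive part of the `t^j(n)` for large
  `n` then `g` acts semisimply on the cohomology of `X`, in all degrees, odd degrees included;
* if `g` acts semisimply on the cohomology of `X` and of `Y` then `u^j(n) = t^j(n)` for all `n`, `j`.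
-/

open Pool.Agent.H914 Pool.Agent.H914.VarClass.Obj Pool.Agent.H914.WeilCohomology
  Pool.Agent.Y132.AH Pool.Agent.X208.SP

universe u

namespace Pool.Agent.Results.MP_93fb11_ag.BlocksOfSizeOne

theorem result {k : Type u} [Field k] {𝒱 : VarClass k} {ops : CycleOps 𝒱}
    {W : WeilCohomology.{u, 0} ops} {Γ : Type} [Group Γ] (G : GaloisData W Γ) {g : Γ}
    (hg : ∀ h : Γ, h ∈ Subgroup.zpowers g) (X : 𝒱.Obj) :
    (¬ ActsSemisimply G g X → ∀ (Y : 𝒱.Obj) (n j : ℕ),
      stairSum X.dim n j (tateRank G Y (X.prod X)) ≤ tateNum G Y (X.prod X) n j) ∧
    (∀ Y : 𝒱.Obj, (1 : W.H Y) ≠ 0 →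
      PosPart Y (X.prod X) (tateRank G Y (X.prod X)) (tateNum G Y (X.prod X)) →
        ActsSemisimply G g X) ∧
    (ActsSemisimply G g X → ∀ Y : 𝒱.Obj, ActsSemisimply G g Y → ∀ n j : ℕ,
      tateRank G Y (X.prod X) n j = tateNum G Y (X.prod X) n j) :=
  semi_main G hg X

end Pool.Agent.Results.MP_93fb11_ag.BlocksOfSizeOne
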