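import Pool.Agent.H313.GE.Jor2

/-!
# Semisimplicity of Frobenius on families over all the twists of abelian coverings

Let `k` be a field with `q` elements, `B` the smooth projective variety over `k` of dimension `n` with
the equations `G i = 0`, `𝒴 → B` a smooth projective morphism, `ℓ` a prime, `F i` (`i < m`) forms of
degrees divisible by `N_i = ℓ ^ (a i)`, such that their divisors on `B` are smooth and ample with normal
crossings, and `χ i` characters of the multiplicative group of `k` of the orders `N_i` (which divide
`q - 1`). For an extension `k'` of `k` of degree `r` and `v = (v i)`, `v i` not zero in `k'`, let `B_v` be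
the covering `w_i ^ (N_i) = v_i F_i` (`i < m`) of `B` over `k'`, and `X_v` the fibre product of `𝒴` and
`B_v` over `B`: a smooth projective variety over `k'`. (If `B` is a curve, `𝒴 → B` may have singular fibres
outside of the zeros of the `F_i`, if `𝒴` is smooth.)

Let `R` be one of the sheaves `R ^ d` of the cohomology of the fibres, with coefficients in an algebraic
closure `E` of the `ℓ'`-adic numbers, `ℓ'` any prime different from the characteristic, and
`P z = det (1 - T Frob)` on the fibre of `R` at the closed point `z` of `B` (on the invariants of the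
inertia group, for a singular fibre); it has integral coefficients. For `j = (j i)`,
`0 ≤ j i < N_i`, let `I(j)` be the set of the `i` with `j i ≠ 0`, and `L_j` the tensor product over
`i ∈ I(j)` of the Kummer sheaves of the characters `χ i ^ (j i)` for `F i`, on the open subset `U_j` of `B`
where these `F i` are not zero. For `I(j)` not empty the cohomology with compact supports of `R ⊗ L_j` is
zero outside of the degree `n`; let `U j = H ^ n_c (U_j, R ⊗ L_j)`, with Frobenius `Φ j`; the polynomial
`det (1 - T Φ j)` is the product `twistedProduct`, or its inverse if `n` is odd. For `j = 0` let `U 0` be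
the part `⊕ H ^ i (B, R)` of the cohomology of `𝒴`. The spectral sequence of Leray degenerates (Deligne),
and the cohomology of `X_v` is the direct sum, over all `d` and `j`, of the spaces `U j`, on which
the Frobenius of `k'` acts as `χ_j(N v) (Φ j) ^ r`, where `N` is the norm from `k'` to `k` and `χ_j(N v)`
the product of the `χ i ^ (j i) (N (v i))`.
-/

set_option autoImplicit false
set_option linter.all false
set_option maxHeartbeats 4000000

open Polynomial NumberField Module

namespace Pool.Agent.Results.MP_93fb11_ag.FamiliesOverAbelianCoverings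

open Pool.Agent.H313.GE.Pts

/-- The set of the `i` with `j i ≠ 0`. -/
def supp {m : ℕ} {N : Fin m → ℕ} (j : ∀ i, Fin (N i)) : Finset (Fin m) :=
  Finset.univ.filter fun i => (j i : ℕ) ≠ 0

/-- The Jordan blocks of `f` have the size `e` at most: the kernels of the powers of `f - α` of the
exponents `e` and `e + 1` are equal, for all `α`. For `e = 1` this means that `f` is diagonalisable, over
an algebraically closed field. -/
def JordanBlocksLE {E V : Type} [Field E] [AddCommGroup V] [Module E V] (f : Module.End E V)
    (e : ℕ) : Prop :=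
  ∀ (α : E) (x : V), ((f - algebraMap E (Module.End E V) α) ^ (e + 1)) x = 0 →
    ((f - algebraMap E (Module.End E V) α) ^ e) x = 0

/-- The Frobenius of the extension `k'` of `k` on the cohomology of `X_v`: it acts on `U j` as
`χ_j(N v) (Φ j) ^ r`. -/
noncomputable def twistedFrobenius {k K E : Type} [Field k] [Field K] [NumberField K] [Field E]
    {m : ℕ} {N : Fin m → ℕ} (χ : Fin m → MulChar k (𝓞 K)) (φ : 𝓞 K →+* E)
    {U : (∀ i, Fin (N i)) → Type} [∀ j, AddCommGroup (U j)] [∀ j, Module E (U j)]
    (Φ : ∀ j, Module.End E (U j)) {k' : Type} [Field k'] [Algebra k k'] (v : Fin m → k'ˣ) :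
    Module.End E (∀ j, U j) :=
  LinearMap.pi fun j => (φ (∏ i, (χ i ^ (j i : ℕ)) (Algebra.norm k (v i : k'))) •
    Φ j ^ finrank k k') ∘ₗ LinearMap.proj j

/-- **Semisimplicity of Frobenius on families over all the twists of abelian coverings.**

For every nonempty set `I` of indices `i` let the product of the `P z (T ^ (deg z))` over the closed
points `z` of `B` where the `F i`, `i ∈ I`, are not zero, or its inverse if `n` is odd, be modulo `ℓ` a
polynomial `H I` which divides `S ^ e` for a squarefree polynomial `S`, and of which the degree is the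
dimension of the spaces `U j` with `I(j) = I`. If the Jordan blocks of Frobenius on `U 0` have the size
`e` at most, then this holds for the Frobenius of `k'` on the cohomology of `X_v`, for all finite
extensions `k'` of `k` and all tuples `v`.

For `e = 1`: if the `H I` are squarefree, for all `d`, then Frobenius is semisimple on the cohomology of
all the varieties `X_v` over all the extensions `k'`, if it is semisimple on the cohomology of `𝒴`. The
condition does not depend on the exponents `a i`, the twists, the extensions and the prime `ℓ'`. -/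
theorem result (ℓ : ℕ) (hℓ : ℓ.Prime) (k : Type) [Field k] [Finite k]
    (K : Type) [Field K] [NumberField K] (M s m n : ℕ)
    (G : Fin s → MvPolynomial (Fin (M + 1)) k) (F : Fin m → MvPolynomial (Fin (M + 1)) k)
    (P : Pt G → ℤ[X]) (hP : ∀ z, (P z).coeff 0 = 1)
    (a : Fin m → ℕ) (χ : Fin m → MulChar k (𝓞 K)) (hχ : ∀ i, orderOf (χ i) = ℓ ^ a i)
    (E : Type) [Field E] [CharZero E] [IsAlgClosed E] (φ : 𝓞 K →+* E)
    (U : (∀ i, Fin (ℓ ^ a i)) → Type) [∀ j, AddCommGroup (U j)] [∀ j, Module E (U j)]
    [∀ j, FiniteDimensional E (U j)] (Φ : ∀ j, Module.End E (U j))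
    (hΦ : ∀ j, (supp j).Nonempty → ∃ D : (𝓞 K)[X], IsDet φ (Φ j) D ∧
      IsSigned n (twistedProduct G F P (fun i => χ i ^ (j i : ℕ)) (supp j)) D)
    (e : ℕ) (h0 : ∀ j, ¬ (supp j).Nonempty → JordanBlocksLE (Φ j) e)
    (H S : Finset (Fin m) → (ZMod ℓ)[X])
    (hI : ∀ I : Finset (Fin m), I.Nonempty → Squarefree (S I) ∧ H I ∣ S I ^ e ∧
      IsSigned n (PowerSeries.map (Int.castRingHom (ZMod ℓ)) (openProduct G F P I)) (H I))
    (hdim : ∀ j, (supp j).Nonempty → (H (supp j)).natDegree = finrank E (U j))
    (k' : Type) [Field k'] [Finite k'] [Algebra k k'] (v : Fin m → k'ˣ) :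
    JordanBlocksLE (twistedFrobenius χ φ Φ v) e := by
  have hF : Fact ℓ.Prime := ⟨hℓ⟩
  have hr : 0 < finrank k k' := Module.finrank_pos
  have hone : ∀ i, χ i ^ ℓ ^ a i = 1 := fun i => by rw [← hχ i, pow_orderOf_eq_one]
  have hblock : ∀ j, Pool.Agent.H313.GE.BlocksLE (Φ j) e := by
    intro j
    by_cases hj : (supp j).Nonempty
    · obtain ⟨D, hD, hDs⟩ := hΦ j hj
      obtain ⟨hS, hHS, hH⟩ := hI _ hj
      refine twisted_blocks G F P hP (fun i => χ i ^ (j i : ℕ)) (supp j) a ?_ (n := n) hDs φ (Φ j)
        hD hH hS hHS (hdim j hj)
      intro i _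
      rw [← pow_mul, mul_comm, pow_mul, hone i, one_pow]
    · exact h0 j hj
  refine Pool.Agent.H313.GE.blocks_pi (fun j => φ (∏ i, (χ i ^ (j i : ℕ))
    (Algebra.norm k (v i : k'))) • Φ j ^ finrank k k') _ (fun x j => rfl) e fun j => ?_
  refine Pool.Agent.H313.GE.blocks_smul (Pool.Agent.H313.GE.blocks_pow (hblock j) hr) ?_
  intro h1
  have h2 : IsUnit (∏ i, (χ i ^ (j i : ℕ)) (Algebra.norm k (v i : k'))) := by
    refine Finset.prod_induction _ _ (fun _ _ => IsUnit.mul) isUnit_one fun i _ => ?_
    exact ((v i).isUnit.map (Algebra.norm k (S := k'))).map (χ i ^ (j i : ℕ))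
  exact (h2.map φ).ne_zero h1

end Pool.Agent.Results.MP_93fb11_ag.FamiliesOverAbelianCoverings
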