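import Pool.Agent.X305.FM.Fin

open CategoryTheory AlgebraicGeometry

universe u v

open Pool.Agent.H914 Pool.Agent.H914.VarClass Pool.Agent.H914.VarClass.Obj Pool.Agent.X305.FM

/-- **Semisimplicity of Frobenius when few correspondences are missing.** Let `X` be a smooth
projective variety over a finite field with `q` elements, `f` its Frobenius endomorphism, `D` an ample
divisor, `W` a Weil cohomology, for instance the `ℓ`-adic cohomology with coefficients in a finite
extension of `ℚ_ℓ`, and `i ≤ dim X`. The coefficient field is supposed to contain the eigenvalues of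
`f^*` on `H^i (X)`; let `m_a` be the multiplicity of the eigenvalue `a` and `M` the sum of the squares
of the `m_a`. Let `r` be (at most) the rank of the form `(u, v) ↦ trace (u v | H^i (X))` on the
algebraic correspondences `u`, `v` of degree `0` on `X` which commute with `f^*`; up to sign these
numbers are intersection numbers. Then `r ≤ M`, and (`d = M - r` is the number of missing
correspondences):
(1) `f^*` is semisimple on `H^i (X)`, if each eigenvalue `a` is simple, or double with `a ^ 2 = q ^ i`
and `i` even, or satisfies `d < 4 m_a - 5`, or satisfies `a ^ 2 ≠ q ^ i` and `d < 8 m_a - 10`;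
(2) `f^*` is semisimple on `H^i (X)` if `d ≤ 2`;
(3) `f^*` is semisimple on `H^i (X)` if `d ≤ 5` and `i` is even.

By the Tate conjecture for `X × X` there are no missing correspondences, `d = 0`. No conjecture is
used here. The other degrees follow by Poincare duality. -/
theorem Pool.Agent.Results.MP_93fb11_ag.FewMissingCorrespondences.result {k : Type u} [Field k]
    {𝒱 : VarClass k} {ops : CycleOps 𝒱} {W : WeilCohomology.{u, v} ops} {X : 𝒱.Obj}
    {D : X.Cycles} {i g : ℕ} {f : X ⟶ X} {q : ℕ} (hd : i + g = X.dim)
    (hHL : HardLefschetz W X D) (hq : 0 < q) (hf : IsFrobeniusFor W X D f q)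
    (hsplit : FrobSplits W X f i) {r : ℕ} (hr : CorrRankAtLeast W X f i r) :
    r ≤ frobSumSq W X f i ∧ (SmallCorrDefect W X f i q r → FrobSemisimpleOn W X f i) ∧
      (frobSumSq W X f i ≤ r + 2 → FrobSemisimpleOn W X f i) ∧
      (Even i → frobSumSq W X f i ≤ r + 5 → FrobSemisimpleOn W X f i) :=
  ⟨rank_le_frobSumSq hsplit hr, semisimple_of_smallDefect hd hHL hq hf hsplit hr,
    semisimple_of_two hd hHL hq hf hsplit hr, semisimple_of_five hd hHL hq hf hsplit hr⟩
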